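import Pool.Agent.Helper20.EP.Spec3

/-!
# EP, part RUNS: a level set of a polynomial consists of few intervals
-/

set_option autoImplicit false

open Polynomial Finset

namespace Pool.Agent.Helper85.EP.RUNS

open Pool.Agent.Helper20.EP

theorem sum_Icc_shift (f : ℕ → ℝ) (N : ℕ) :
    ∑ n ∈ Icc 1 N, f n = ∑ j ∈ range N, f (j + 1) := by
  induction N with
  | zero => simp
  | succ N ih =>
    rw [Finset.sum_Icc_succ_top (by omega), ih, Finset.sum_range_succ]

theorem cnt_eq (N : ℕ) (P : ℕ → Prop) [DecidablePred P] :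
    cnt N P = ∑ j ∈ range N, (if P (j + 1) then (1 : ℝ) else 0) := by
  classical
  rw [← sum_Icc_shift (fun n => if P n then (1 : ℝ) else 0) N]
  unfold cnt
  rw [Finset.card_filter]
  push_cast
  refine Finset.sum_congr rfl fun n _ => ?_
  split_ifs <;> simp

/-- Abel summation -/
theorem abel (s g : ℕ → ℝ) (N : ℕ) :
    ∑ n ∈ range N, s n * g n = s N * (∑ j ∈ range N, g j) -
      ∑ n ∈ range N, (s (n + 1) - s n) * (∑ j ∈ range (n + 1), g j) := by
  induction N with
  | zero => simp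
  | succ N ih =>
    rw [Finset.sum_range_succ, ih, Finset.sum_range_succ (fun n => (s (n + 1) - s n) *
      (∑ j ∈ range (n + 1), g j)), Finset.sum_range_succ g N]
    ring

/-- residue classes in an interval -/
theorem class_count (m r k : ℕ) (hm : 1 ≤ m) (hr : r < m) :
    |(((range k).filter fun j => (j + 1) % m = r).card : ℝ) - (k : ℝ) / m| ≤ 1 := by
  have h1 : ((range k).filter fun j => (j + 1) % m = r).card =
      ((Ioc 0 k).filter fun x => x ≡ r [MOD m]).card := by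
    apply Finset.card_bij (fun j _ => j + 1)
    · intro j hj
      rw [mem_filter, mem_range] at hj
      rw [mem_filter, mem_Ioc]
      refine ⟨by omega, ?_⟩
      unfold Nat.ModEq
      rw [hj.2, Nat.mod_eq_of_lt hr]
    · intro a _ b _ hab
      omega
    · intro x hx
      rw [mem_filter, mem_Ioc] at hx
      refine ⟨x - 1, ?_, by omega⟩
      rw [mem_filter, mem_range]
      have e : x - 1 + 1 = x := by omega
      refine ⟨by omega, ?_⟩
      rw [e]
      have := hx.2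
      unfold Nat.ModEq at this
      rw [this, Nat.mod_eq_of_lt hr]
  have hmpos : (0 : ℤ) < (m : ℤ) := by exact_mod_cast hm
  have h2 := Nat.Ioc_filter_modEq_card 0 k (r := m) (by omega) r
  rw [h1]
  set c := ((Ioc 0 k).filter fun x => x ≡ r [MOD m]).card with hc
  set x : ℚ := ((k : ℚ) - (r : ℚ)) / (m : ℚ) with hx
  set y : ℚ := (((0 : ℕ) : ℚ) - (r : ℚ)) / (m : ℚ) with hy
  have hmq : (0 : ℚ) < (m : ℚ) := by exact_mod_cast hm
  have hxy : x - y = (k : ℚ) / m := by
    rw [hx, hy, ← sub_div]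
    congr 1
    push_cast
    ring
  have f1 := Int.floor_le x
  have f2 := Int.lt_floor_add_one x
  have f3 := Int.floor_le y
  have f4 := Int.lt_floor_add_one y
  have hk0 : (0 : ℚ) ≤ (k : ℚ) / m := by positivity
  have hnn : 0 ≤ ⌊x⌋ - ⌊y⌋ := by
    have : (-1 : ℚ) < ((⌊x⌋ - ⌊y⌋ : ℤ) : ℚ) := by push_cast; linarith
    have : (-1 : ℤ) < ⌊x⌋ - ⌊y⌋ := by exact_mod_cast this
    omega
  have h3 : (c : ℤ) = ⌊x⌋ - ⌊y⌋ := by
    rw [h2]
    exact max_eq_left hnn
  have h4 : |((c : ℤ) : ℚ) - (k : ℚ) / m| ≤ 1 := by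
    rw [h3, abs_le]
    push_cast
    constructor <;> linarith
  have h5 : ((|((c : ℤ) : ℚ) - (k : ℚ) / m| : ℚ) : ℝ) ≤ ((1 : ℚ) : ℝ) := by exact_mod_cast h4
  push_cast at h5
  exact h5

/-- the discrepancy of the classes -/
theorem class_disc (m : ℕ) (R : Finset ℕ) (hm : 1 ≤ m) (hR : R ⊆ range m) (k : ℕ) :
    |∑ j ∈ range k, ((if (j + 1) % m ∈ R then (1 : ℝ) else 0) - (R.card : ℝ) / m)| ≤ R.card := by
  have h1 : ∑ j ∈ range k, ((if (j + 1) % m ∈ R then (1 : ℝ) else 0) - (R.card : ℝ) / m) =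
      ∑ r ∈ R, ((((range k).filter fun j => (j + 1) % m = r).card : ℝ) - (k : ℝ) / m) := by
    rw [Finset.sum_sub_distrib, Finset.sum_sub_distrib]
    congr 1
    · have : ∀ j ∈ range k, (if (j + 1) % m ∈ R then (1 : ℝ) else 0) =
          ∑ r ∈ R, (if (j + 1) % m = r then (1 : ℝ) else 0) := by
        intro j _
        rw [Finset.sum_ite_eq]
      rw [Finset.sum_congr rfl this, Finset.sum_comm]
      refine Finset.sum_congr rfl fun r _ => ?_
      rw [Finset.card_filter]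
      push_cast
      rfl
    · simp only [Finset.sum_const, Finset.card_range, nsmul_eq_mul]
      ring
  rw [h1]
  refine (Finset.abs_sum_le_sum_abs _ _).trans ?_
  calc ∑ r ∈ R, |(((range k).filter fun j => (j + 1) % m = r).card : ℝ) - (k : ℝ) / m|
      ≤ ∑ _r ∈ R, (1 : ℝ) := by
        refine Finset.sum_le_sum fun r hr => ?_
        exact class_count m r k hm (Finset.mem_range.1 (hR hr))
    _ = R.card := by simp

/-- changes of the level set -/
theorem changes (d : ℕ) (θ : ℝ[X]) (u : ℝ) (hθ : θ.natDegree ≤ d) (N : ℕ) :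
    ((range N).filter fun n : ℕ => ¬ ((u ≤ θ.eval ((n + 1 + 1 : ℕ) : ℝ)) ↔
      (u ≤ θ.eval ((n + 1 : ℕ) : ℝ)))).card ≤ 2 * d := by
  classical
  set g : ℝ[X] := θ - C u with hg
  have hge : ∀ x : ℝ, g.eval x = θ.eval x - u := by intro x; simp [hg]
  by_cases h0 : g = 0
  · have : ((range N).filter fun n : ℕ => ¬ ((u ≤ θ.eval ((n + 1 + 1 : ℕ) : ℝ)) ↔
        (u ≤ θ.eval ((n + 1 : ℕ) : ℝ)))) = ∅ := by
      rw [Finset.filter_eq_empty_iff]
      intro n _
      rw [not_not]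
      have e : ∀ x : ℝ, θ.eval x = u := by
        intro x
        have := hge x
        rw [h0, eval_zero] at this
        linarith
      rw [e, e]
    rw [this]
    simp
  · have hdeg : g.natDegree ≤ d := by
      rw [hg]
      exact (natDegree_sub_C).le.trans hθ
    have hsub : ((range N).filter fun n : ℕ => ¬ ((u ≤ θ.eval ((n + 1 + 1 : ℕ) : ℝ)) ↔
        (u ≤ θ.eval ((n + 1 : ℕ) : ℝ)))) ⊆
        g.roots.toFinset.biUnion (fun ρ => Icc (⌊ρ⌋₊ - 2) (⌊ρ⌋₊ - 1)) := by
      intro n hn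
      rw [mem_filter] at hn
      have hIVT : ∃ ρ ∈ Set.Icc (((n + 1 : ℕ) : ℝ)) (((n + 1 + 1 : ℕ) : ℝ)), g.eval ρ = 0 := by
        have hle : (((n + 1 : ℕ) : ℝ)) ≤ (((n + 1 + 1 : ℕ) : ℝ)) := by push_cast; linarith
        have hc : ContinuousOn (fun x => g.eval x) (Set.Icc (((n + 1 : ℕ) : ℝ))
          (((n + 1 + 1 : ℕ) : ℝ))) := g.continuous.continuousOn
        by_cases ha : u ≤ θ.eval ((n + 1 : ℕ) : ℝ)
        · have hb : ¬ u ≤ θ.eval ((n + 1 + 1 : ℕ) : ℝ) := fun hb => hn.2 ⟨fun _ => ha, fun _ => hb⟩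
          have := intermediate_value_Icc' hle hc (show (0 : ℝ) ∈ Set.Icc _ _ from
            ⟨by rw [hge]; push Not at hb; linarith, by rw [hge]; linarith⟩)
          obtain ⟨ρ, h1, h2⟩ := this
          exact ⟨ρ, h1, h2⟩
        · have hb : u ≤ θ.eval ((n + 1 + 1 : ℕ) : ℝ) := by
            by_contra hb
            exact hn.2 ⟨fun h => absurd h hb, fun h => absurd h ha⟩
          have := intermediate_value_Icc hle hc (show (0 : ℝ) ∈ Set.Icc _ _ from
            ⟨by rw [hge]; push Not at ha; linarith, by rw [hge]; linarith⟩)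
          obtain ⟨ρ, h1, h2⟩ := this
          exact ⟨ρ, h1, h2⟩
      obtain ⟨ρ, ⟨hρ1, hρ2⟩, hρ⟩ := hIVT
      rw [mem_biUnion]
      refine ⟨ρ, ?_, ?_⟩
      · rw [Multiset.mem_toFinset, mem_roots h0]
        exact hρ
      · have hρ0 : 0 ≤ ρ := le_trans (by positivity) hρ1
        have a1 : n + 1 ≤ ⌊ρ⌋₊ := Nat.le_floor hρ1
        have a2 : ⌊ρ⌋₊ ≤ n + 1 + 1 := by
          have := Nat.floor_le_floor hρ2
          rwa [Nat.floor_natCast] at this
        rw [mem_Icc]
        omega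
    refine (Finset.card_le_card hsub).trans ?_
    refine (Finset.card_biUnion_le_card_mul _ _ 2 ?_).trans ?_
    · intro ρ _
      rw [Nat.card_Icc]
      omega
    · have h1 : g.roots.toFinset.card ≤ g.natDegree :=
        (Multiset.toFinset_card_le _).trans (card_roots' g)
      omega

theorem main : S_RUNS := by
  classical
  intro d θ u v N m R hθ hm hR
  set s : ℕ → ℝ := fun n => if (u ≤ θ.eval ((n + 1 : ℕ) : ℝ) ∧ θ.eval ((n + 1 : ℕ) : ℝ) < v)
    then 1 else 0 with hs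
  set g : ℕ → ℝ := fun j => (if (j + 1) % m ∈ R then (1 : ℝ) else 0) - (R.card : ℝ) / m with hg
  have hG : ∀ k, |∑ j ∈ range k, g j| ≤ R.card := fun k => class_disc m R hm hR k
  have hsum : cnt N (fun n => u ≤ θ.eval (n : ℝ) ∧ θ.eval (n : ℝ) < v ∧ n % m ∈ R) -
      (R.card : ℝ) / m * cnt N (fun n => u ≤ θ.eval (n : ℝ) ∧ θ.eval (n : ℝ) < v) =
      ∑ n ∈ range N, s n * g n := by
    rw [cnt_eq, cnt_eq, Finset.mul_sum, ← Finset.sum_sub_distrib]
    refine Finset.sum_congr rfl fun n _ => ?_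
    rw [hs, hg]
    simp only
    by_cases h1 : u ≤ θ.eval ((n + 1 : ℕ) : ℝ)
    · by_cases h2 : θ.eval ((n + 1 : ℕ) : ℝ) < v
      · by_cases h3 : (n + 1) % m ∈ R
        · rw [if_pos ⟨h1, h2, h3⟩, if_pos ⟨h1, h2⟩, if_pos h3]; ring
        · rw [if_neg (fun h => h3 h.2.2), if_pos ⟨h1, h2⟩, if_neg h3]; ring
      · rw [if_neg (fun h => h2 h.2.1), if_neg (fun h => h2 h.2)]; ring
    · rw [if_neg (fun h => h1 h.1), if_neg (fun h => h1 h.1)]; ring
  rw [hsum, abel]
  have hs01 : ∀ n, |s n| ≤ 1 := by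
    intro n
    rw [hs]
    simp only
    split_ifs <;> simp
  have h1 : |s N * ∑ j ∈ range N, g j| ≤ R.card := by
    rw [abs_mul]
    calc |s N| * |∑ j ∈ range N, g j| ≤ 1 * R.card :=
          mul_le_mul (hs01 N) (hG N) (abs_nonneg _) zero_le_one
      _ = R.card := one_mul _
  have h2 : |∑ n ∈ range N, (s (n + 1) - s n) * (∑ j ∈ range (n + 1), g j)| ≤
      (4 * d : ℝ) * R.card := by
    refine (Finset.abs_sum_le_sum_abs _ _).trans ?_
    have h3 : ∀ n ∈ range N, |(s (n + 1) - s n) * (∑ j ∈ range (n + 1), g j)| ≤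
        (if ¬ ((u ≤ θ.eval ((n + 1 + 1 : ℕ) : ℝ)) ↔ (u ≤ θ.eval ((n + 1 : ℕ) : ℝ)))
          then (R.card : ℝ) else 0) +
        (if ¬ ((v ≤ θ.eval ((n + 1 + 1 : ℕ) : ℝ)) ↔ (v ≤ θ.eval ((n + 1 : ℕ) : ℝ)))
          then (R.card : ℝ) else 0) := by
      intro n _
      rw [abs_mul]
      have hR0 : (0 : ℝ) ≤ R.card := by positivity
      by_cases hch : s (n + 1) = s n
      · rw [hch, sub_self, abs_zero, zero_mul]
        split_ifs <;> linarith
      · have hd1 : |s (n + 1) - s n| ≤ 1 := by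
          rw [hs]
          simp only
          split_ifs <;> simp
        have hb : |s (n + 1) - s n| * |∑ j ∈ range (n + 1), g j| ≤ R.card := by
          calc _ ≤ 1 * (R.card : ℝ) := mul_le_mul hd1 (hG _) (abs_nonneg _) zero_le_one
            _ = R.card := one_mul _
        by_cases c1 : ((u ≤ θ.eval ((n + 1 + 1 : ℕ) : ℝ)) ↔ (u ≤ θ.eval ((n + 1 : ℕ) : ℝ)))
        · by_cases c2 : ((v ≤ θ.eval ((n + 1 + 1 : ℕ) : ℝ)) ↔ (v ≤ θ.eval ((n + 1 : ℕ) : ℝ)))
          · exfalso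
            apply hch
            rw [hs]
            simp only
            have c2' : (θ.eval ((n + 1 + 1 : ℕ) : ℝ) < v) ↔ (θ.eval ((n + 1 : ℕ) : ℝ) < v) := by
              rw [← not_le, ← not_le, c2]
            rw [if_congr (and_congr c1 c2') rfl rfl]
          · rw [if_neg (not_not.2 c1), if_pos c2, zero_add]
            exact hb
        · rw [if_pos c1]
          split_ifs <;> linarith
    refine (Finset.sum_le_sum h3).trans ?_
    rw [Finset.sum_add_distrib, ← Finset.sum_filter, ← Finset.sum_filter, Finset.sum_const,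
      Finset.sum_const, nsmul_eq_mul, nsmul_eq_mul]
    have e1 := changes d θ u hθ N
    have e2 := changes d θ v hθ N
    have e1' : ((((range N).filter fun n : ℕ => ¬ ((u ≤ θ.eval ((n + 1 + 1 : ℕ) : ℝ)) ↔
      (u ≤ θ.eval ((n + 1 : ℕ) : ℝ)))).card : ℕ) : ℝ) ≤ 2 * d := by exact_mod_cast e1
    have e2' : ((((range N).filter fun n : ℕ => ¬ ((v ≤ θ.eval ((n + 1 + 1 : ℕ) : ℝ)) ↔
      (v ≤ θ.eval ((n + 1 : ℕ) : ℝ)))).card : ℕ) : ℝ) ≤ 2 * d := by exact_mod_cast e2
    have hR0 : (0 : ℝ) ≤ R.card := by positivity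
    nlinarith [mul_le_mul_of_nonneg_right e1' hR0, mul_le_mul_of_nonneg_right e2' hR0]
  have hR0 : (0 : ℝ) ≤ R.card := by positivity
  calc |s N * ∑ j ∈ range N, g j - ∑ n ∈ range N, (s (n + 1) - s n) *
        (∑ j ∈ range (n + 1), g j)|
      ≤ |s N * ∑ j ∈ range N, g j| + |∑ n ∈ range N, (s (n + 1) - s n) *
        (∑ j ∈ range (n + 1), g j)| := abs_sub _ _
    _ ≤ R.card + (4 * d : ℝ) * R.card := add_le_add h1 h2
    _ ≤ (4 * d + 2) * R.card := by nlinarith

end Pool.Agent.Helper85.EP.RUNS
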